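import Pool.Agent.H590.PL.Stm

set_option autoImplicit false

/-!
# Frullani type integrals with bounds
-/

noncomputable section

open MeasureTheory Filter Topology Set

namespace Pool.Agent.H120.PLFR

theorem exp_diff1 (a b : ℝ) (h : a ≤ b) :
    |Real.exp (-a) - Real.exp (-b)| ≤ |a - b| * Real.exp (-(min a b)) := by
  have h1 : Real.exp (-b) = Real.exp (-a) * Real.exp (-(b - a)) := by
    rw [← Real.exp_add]
    congr 1
    ring
  have h2 := Real.add_one_le_exp (-(b - a))
  have h3 : Real.exp (-b) ≤ Real.exp (-a) := Real.exp_le_exp.mpr (by linarith)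
  rw [min_eq_left h, abs_of_nonneg (by linarith), abs_of_nonpos (by linarith), h1]
  have h4 := Real.exp_pos (-a)
  nlinarith

theorem exp_diff (a b : ℝ) : |Real.exp (-a) - Real.exp (-b)| ≤ |a - b| * Real.exp (-(min a b)) := by
  rcases le_total a b with h | h
  · exact exp_diff1 a b h
  · have h1 := exp_diff1 b a h
    rwa [abs_sub_comm, abs_sub_comm b a, min_comm] at h1

theorem q_int (t : ℝ) (ht : 0 < t) :
    IntegrableOn (fun y : ℝ => (Real.exp (-(y * t)) - Real.exp (-y)) / y) (Ioi 0) := by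
  have h1 : IntegrableOn (fun y : ℝ => |t - 1| * Real.exp (-(min t 1) * y)) (Ioi 0) :=
    (exp_neg_integrableOn_Ioi 0 (lt_min ht one_pos)).const_mul _
  refine Integrable.mono' h1 ?_ ?_
  · refine ContinuousOn.aestronglyMeasurable ?_ measurableSet_Ioi
    exact ContinuousOn.div (by fun_prop) continuousOn_id fun y hy => ne_of_gt hy
  · filter_upwards [ae_restrict_mem measurableSet_Ioi] with y hy
    have hy' : 0 < y := hy
    have h2 := exp_diff (y * t) y
    have h3 : |y * t - y| = y * |t - 1| := by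
      rw [show y * t - y = y * (t - 1) by ring, abs_mul, abs_of_pos hy']
    have h4 : min (y * t) y = min t 1 * y := by
      rw [min_mul_of_nonneg _ _ hy'.le, one_mul, mul_comm]
    rw [h3, h4] at h2
    rw [Real.norm_eq_abs, abs_div, abs_of_pos hy', div_le_iff₀ hy']
    calc _ ≤ _ := h2
      _ = _ := by rw [neg_mul]; ring

theorem q_val (t : ℝ) (ht : 0 < t) :
    ∫ y in Ioi (0 : ℝ), (Real.exp (-(y * t)) - Real.exp (-y)) / y = -Real.log t := by
  have h1 := Frullani.integral_Ioi_eq (f := fun x : ℝ => Real.exp (-x)) (a := t) (b := 1) (L := (1 : ℝ)) (R := 0)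
    ((by fun_prop : Continuous fun x : ℝ => Real.exp (-x)).locallyIntegrable.locallyIntegrableOn _) ht one_pos
    (by
      have h2 : Tendsto (fun x : ℝ => Real.exp (-x)) (𝓝 0) (𝓝 (Real.exp (-0))) :=
        (by fun_prop : Continuous fun x : ℝ => Real.exp (-x)).tendsto 0
      rw [neg_zero, Real.exp_zero] at h2
      exact h2.mono_left nhdsWithin_le_nhds)
    (Real.tendsto_exp_neg_atTop_nhds_zero)
    (by
      refine (q_int t ht).congr_fun (fun y _ => ?_) measurableSet_Ioi
      show (Real.exp (-(y * t)) - Real.exp (-y)) / y = y⁻¹ • (Real.exp (-(t * y)) - Real.exp (-(1 * y)))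
      rw [smul_eq_mul, one_mul, mul_comm t y, div_eq_inv_mul])
  rw [one_div, Real.log_inv, sub_zero, smul_eq_mul, mul_one] at h1
  rw [← h1]
  refine setIntegral_congr_fun measurableSet_Ioi fun y _ => ?_
  show (Real.exp (-(y * t)) - Real.exp (-y)) / y = y⁻¹ • (Real.exp (-(t * y)) - Real.exp (-(1 * y)))
  rw [smul_eq_mul, one_mul, mul_comm t y, div_eq_inv_mul]

theorem q_abs (t : ℝ) (ht : 0 < t) :
    ∫ y in Ioi (0 : ℝ), |(Real.exp (-(y * t)) - Real.exp (-y)) / y| = |Real.log t| := by
  rcases le_total t 1 with h | h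
  · rw [setIntegral_congr_fun (g := fun y : ℝ => (Real.exp (-(y * t)) - Real.exp (-y)) / y) measurableSet_Ioi
      fun y hy => ?_, q_val t ht, abs_of_nonpos (Real.log_nonpos ht.le h)]
    have hy' : 0 < y := hy
    refine abs_of_nonneg (div_nonneg (sub_nonneg.mpr (Real.exp_le_exp.mpr ?_)) hy'.le)
    nlinarith
  · rw [setIntegral_congr_fun (g := fun y : ℝ => -((Real.exp (-(y * t)) - Real.exp (-y)) / y)) measurableSet_Ioi
      fun y hy => ?_, integral_neg, q_val t ht, abs_of_nonneg (Real.log_nonneg h), neg_neg]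
    have hy' : 0 < y := hy
    refine abs_of_nonpos (div_nonpos_of_nonpos_of_nonneg (sub_nonpos.mpr (Real.exp_le_exp.mpr ?_)) hy'.le)
    nlinarith

/-- the second part of the integrand -/
def dd (t y : ℝ) : ℝ := (1 - Real.exp (-(y * t)) - t * y * Real.exp (-(y * t))) / y ^ 2

/-- its antiderivative -/
def gg (t : ℝ) : ℝ → ℝ := Function.update (fun y => -((1 - Real.exp (-(y * t))) / y)) 0 (-t)

theorem gg_cont (t : ℝ) : ContinuousWithinAt (gg t) (Ici 0) 0 := by
  unfold gg
  rw [continuousWithinAt_update_same, Ici_sdiff_left]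
  have h1 : HasDerivAt (fun y : ℝ => 1 - Real.exp (-(y * t))) t 0 := by
    have h2 : HasDerivAt (fun y : ℝ => -(y * t)) (-(1 * t)) 0 := ((hasDerivAt_id (0 : ℝ)).mul_const t).neg
    have h3 := (h2.exp).const_sub 1
    simpa using h3
  have h4 := hasDerivAt_iff_tendsto_slope.mp h1
  have h5 : Tendsto (fun y : ℝ => -slope (fun y : ℝ => 1 - Real.exp (-(y * t))) 0 y) (𝓝[>] 0) (𝓝 (-t)) :=
    (h4.mono_left (nhdsWithin_mono _ (fun x hx => ne_of_gt hx))).neg
  refine h5.congr fun y => ?_
  simp only [slope, vsub_eq_sub, sub_zero, zero_mul, neg_zero, Real.exp_zero, sub_self, smul_eq_mul]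
  rw [div_eq_inv_mul]

theorem gg_deriv (t y : ℝ) (hy : y ∈ Ioi (0 : ℝ)) : HasDerivAt (gg t) (dd t y) y := by
  have hy' : 0 < y := hy
  have h2 : HasDerivAt (fun y : ℝ => -(y * t)) (-(1 * t)) y := ((hasDerivAt_id y).mul_const t).neg
  have h3 := ((h2.exp).const_sub 1).div (hasDerivAt_id y) (ne_of_gt hy')
  have h4 := h3.neg
  have h5 : gg t =ᶠ[𝓝 y] fun y => -((1 - Real.exp (-(y * t))) / y) := by
    filter_upwards [Ioi_mem_nhds hy'] with z hz
    unfold gg
    rw [Function.update_of_ne (ne_of_gt hz)]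
  refine HasDerivAt.congr_of_eventuallyEq ?_ h5
  refine h4.congr_deriv ?_
  unfold dd
  simp only [id]
  field_simp
  ring

theorem dd_nonneg (t y : ℝ) (hy : y ∈ Ioi (0 : ℝ)) : 0 ≤ dd t y := by
  have hy' : 0 < y := hy
  refine div_nonneg ?_ (by positivity)
  have h1 := Real.add_one_le_exp (y * t)
  have h2 : Real.exp (y * t) * Real.exp (-(y * t)) = 1 := by rw [← Real.exp_add, add_neg_cancel, Real.exp_zero]
  have h3 := Real.exp_pos (-(y * t))
  nlinarith

theorem gg_lim (t : ℝ) (ht : 0 ≤ t) : Tendsto (gg t) atTop (𝓝 0) := by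
  have h5 : (fun y : ℝ => -((1 - Real.exp (-(y * t))) / y)) =ᶠ[atTop] gg t := by
    filter_upwards [eventually_gt_atTop 0] with z hz
    unfold gg
    rw [Function.update_of_ne (ne_of_gt hz)]
  refine Tendsto.congr' h5 ?_
  rw [show (0 : ℝ) = -0 by ring]
  refine Tendsto.neg ?_
  refine squeeze_zero' (g := fun y : ℝ => y⁻¹) ?_ ?_ tendsto_inv_atTop_zero
  · filter_upwards [eventually_gt_atTop 0] with z hz
    refine div_nonneg (sub_nonneg.mpr (Real.exp_le_one_iff.mpr ?_)) hz.le
    have := mul_nonneg hz.le ht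
    linarith
  · filter_upwards [eventually_gt_atTop 0] with z hz
    rw [← one_div]
    refine div_le_div_of_nonneg_right ?_ hz.le
    linarith [Real.exp_pos (-(z * t))]

theorem dd_int (t : ℝ) (ht : 0 ≤ t) : IntegrableOn (dd t) (Ioi 0) :=
  integrableOn_Ioi_deriv_of_nonneg (gg_cont t) (gg_deriv t) (dd_nonneg t) (gg_lim t ht)

theorem dd_val (t : ℝ) (ht : 0 ≤ t) : ∫ y in Ioi (0 : ℝ), dd t y = t := by
  rw [integral_Ioi_of_hasDerivAt_of_nonneg (gg_cont t) (gg_deriv t) (dd_nonneg t) (gg_lim t ht)]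
  unfold gg
  rw [Function.update_self]
  ring

theorem f_eq (t y : ℝ) (hy : y ∈ Ioi (0 : ℝ)) :
    (Real.exp (-(y * t)) - 1 + y * Real.exp (-y) * t) / y ^ 2 =
      (-t) * ((Real.exp (-(y * t)) - Real.exp (-y)) / y) - dd t y := by
  have hy' : 0 < y := hy
  unfold dd
  field_simp
  ring

theorem FR : H590PL.S_FR := by
  refine ⟨fun t ht => ?_, fun t ht => ⟨q_int t ht, q_val t ht⟩, 1, one_pos, fun t ht => ?_,
    fun t ht => (q_abs t ht).le⟩
  · rcases ht.eq_or_lt with rfl | ht
    · simp
    · have h1 := ((q_int t ht).const_mul (-t)).sub (dd_int t ht.le)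
      constructor
      · exact IntegrableOn.congr_fun h1 (fun y hy => (f_eq t y hy).symm) measurableSet_Ioi
      · rw [setIntegral_congr_fun measurableSet_Ioi (f_eq t),
          integral_sub ((q_int t ht).const_mul (-t)) (dd_int t ht.le), integral_const_mul, q_val t ht,
          dd_val t ht.le]
        ring
  · rcases ht.eq_or_lt with rfl | ht
    · simp
    · have h2 : IntegrableOn (fun y : ℝ => t * |(Real.exp (-(y * t)) - Real.exp (-y)) / y| + dd t y) (Ioi 0) :=
        ((q_int t ht).abs.const_mul t).add (dd_int t ht.le)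
      have h3 : ∫ y in Ioi (0 : ℝ), |(Real.exp (-(y * t)) - 1 + y * Real.exp (-y) * t) / y ^ 2| ≤
          ∫ y in Ioi (0 : ℝ), (t * |(Real.exp (-(y * t)) - Real.exp (-y)) / y| + dd t y) := by
        refine setIntegral_mono_on ?_ h2 measurableSet_Ioi fun y hy => ?_
        · have h1 := ((q_int t ht).const_mul (-t)).sub (dd_int t ht.le)
          exact Integrable.abs (IntegrableOn.congr_fun h1 (fun y hy => (f_eq t y hy).symm) measurableSet_Ioi)
        · rw [f_eq t y hy]
          refine (abs_sub _ _).trans ?_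
          rw [abs_mul, abs_neg, abs_of_pos ht, abs_of_nonneg (dd_nonneg t y hy)]
      rw [integral_add ((q_int t ht).abs.const_mul t) (dd_int t ht.le), integral_const_mul, q_abs t ht,
        dd_val t ht.le] at h3
      refine h3.trans ?_
      linarith

end Pool.Agent.H120.PLFR
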